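import Pool.Agent.Lib.MP_f1f412_co.Asm4
import Pool.Agent.Lib.MP_f1f412_co.ZLeaf

/-!
# MP_f1f412_co: global rigidity of squares of graphs of girth at least five in 3-space

The full answer of Q1.  The proof is in `Pool/Agent/Lib/MP_f1f412_co/` (mathematics in `TEXT1.md` to
`TEXT4.md`).
-/

set_option autoImplicit false

namespace Pool.Agent.Results.MP_f1f412_co.SquaresGirthFive

/-- Euclidean 3-space. -/
abbrev E3 : Type := EuclideanSpace ℝ (Fin 3)

/-- The square of a simple graph: distinct vertices at distance at most two are joined. -/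
def square {V : Type} (G : SimpleGraph V) : SimpleGraph V where
  Adj u v := u ≠ v ∧ (G.Adj u v ∨ ∃ w, G.Adj u w ∧ G.Adj w v)
  symm := ⟨by
    rintro u v ⟨h, h'⟩
    refine ⟨h.symm, ?_⟩
    rcases h' with h' | ⟨w, h1, h2⟩
    · exact Or.inl h'.symm
    · exact Or.inr ⟨w, h2.symm, h1.symm⟩⟩
  loopless := ⟨fun u h => h.1 rfl⟩

/-- A configuration in 3-space is generic if its coordinates are algebraically independent
over the rationals. -/
def Generic {V : Type} (p : V → E3) : Prop :=
  AlgebraicIndependent ℚ (fun i : V × Fin 3 => p i.1 i.2)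

/-- The framework `(H, p)` is globally rigid in 3-space. -/
def FrameworkGloballyRigid {V : Type} (H : SimpleGraph V) (p : V → E3) : Prop :=
  ∀ q : V → E3, (∀ u v, H.Adj u v → dist (q u) (q v) = dist (p u) (p v)) →
    ∀ u v, dist (q u) (q v) = dist (p u) (p v)

/-- `H` is generically globally rigid in 3-space: generic configurations exist, and every
generic configuration gives a globally rigid framework. -/
def GloballyRigid {V : Type} (H : SimpleGraph V) : Prop :=
  (∃ p : V → E3, Generic p) ∧ ∀ p : V → E3, Generic p → FrameworkGloballyRigid H p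

/-- `H` is `k`-connected: deleting fewer than `k` vertices leaves a connected graph. -/
def KConnected {V : Type} (k : ℕ) (H : SimpleGraph V) : Prop :=
  ∀ S : Set V, S.Finite → S.ncard < k → (H.induce Sᶜ).Connected

/-- No cycle of length three or four. -/
def NoShortCycle {V : Type} (G : SimpleGraph V) : Prop :=
  (∀ a b c, ¬ (G.Adj a b ∧ G.Adj b c ∧ G.Adj c a)) ∧
  (∀ a b c d, a ≠ c → b ≠ d → ¬ (G.Adj a b ∧ G.Adj b c ∧ G.Adj c d ∧ G.Adj d a))

/-- For the multigraph with vertex type `V`, edge type `E` and end map `ends`, the edge set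
`T` is the edge set of a spanning tree. -/
def IsSpanningTree {V E : Type} (ends : E → Sym2 V) (T : Set E) : Prop :=
  Set.InjOn ends T ∧ (SimpleGraph.fromEdgeSet (ends '' T)).IsTree

/-- The multigraph is highly `k`-tree-connected: after deleting any single edge there are still
`k` edge-disjoint spanning trees. -/
def HighlyTreeConnected {V E : Type} (k : ℕ) (ends : E → Sym2 V) : Prop :=
  ∀ e : E, ∃ T : Fin k → Set E, (∀ i, IsSpanningTree ends (T i)) ∧
    (∀ i j, i ≠ j → Disjoint (T i) (T j)) ∧ ∀ i, e ∉ T i

/-- The end map of the multigraph `kG`: its edges are the pairs (edge of `G`, copy index). -/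
def multiple {V : Type} (k : ℕ) (G : SimpleGraph V) : G.edgeSet × Fin k → Sym2 V :=
  fun e => (e.1 : Sym2 V)

/-- The condition of the problem: `G²` is 4-connected and `5G` is highly 6-tree-connected. -/
def Cond {V : Type} (G : SimpleGraph V) : Prop :=
  KConnected 4 (square G) ∧ HighlyTreeConnected 6 (multiple 5 G)

/-- The vertex set of the 2-core of `G`: the union of all sets of vertices which induce a graph of
minimum degree at least two. -/
def core {V : Type} (G : SimpleGraph V) : Set V :=
  ⋃₀ {U : Set V | ∀ v ∈ U, ∃ a ∈ U, ∃ b ∈ U, a ≠ b ∧ G.Adj v a ∧ G.Adj v b}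

/-- The condition for all graphs: `G²` is 4-connected and `5C` is highly 6-tree-connected, where
`C` is the 2-core of `G`. -/
def CondC {V : Type} (G : SimpleGraph V) : Prop :=
  KConnected 4 (square G) ∧ HighlyTreeConnected 6 (multiple 5 (G.induce (core G)))

/-- Minimum degree at least two. -/
def Deg2 {V : Type} (G : SimpleGraph V) : Prop := ∀ v, ∃ a b, a ≠ b ∧ G.Adj v a ∧ G.Adj v b

theorem main (V : Type) [Finite V] (G : SimpleGraph V)
    (hG : NoShortCycle G) (h5 : 5 ≤ Nat.card V) :
    (Deg2 G → (GloballyRigid (square G) ↔ Cond G)) ∧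
    (GloballyRigid (square G) ↔ CondC G) ∧
    ((∃ p : V → E3, Generic p ∧ FrameworkGloballyRigid (square G) p) ↔
      GloballyRigid (square G)) ∧
    ((GloballyRigid (square G) ↔ Cond G) ↔ (Deg2 G ∨ ¬ GloballyRigid (square G))) := by
  obtain ⟨h1, h2, h3⟩ := MPf1f412.zEnd V G hG h5
  refine ⟨h3, h2, h1, ?_, ?_⟩
  · intro h
    by_cases hd : Deg2 G
    · exact Or.inl hd
    · refine Or.inr fun hr => hd ?_
      exact MPf1f412.deg2_of_cond (G := G) hG h5 (h.1 hr)
  · rintro (hd | hr)
    · exact h3 hd
    · refine ⟨fun h => absurd h hr, fun h => ?_⟩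
      have hd : Deg2 G := MPf1f412.deg2_of_cond (G := G) hG h5 h
      exact (h3 hd).2 h

/-- **Squares of graphs of girth at least five.**  Let `G` be a finite simple graph on at least five
vertices without cycles of length three or four.  (1) If `G` has minimum degree at least two then `G²` is
generically globally rigid in 3-space if and only if `G²` is 4-connected and `5G` is highly
6-tree-connected.  (2) In general `G²` is generically globally rigid in 3-space if and only if `G²` is 4-connected and
`5C` is highly 6-tree-connected, where `C` is the 2-core of `G`.  (3) `G²` is globally rigid for some generic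
configuration if and only if it is for all.  (4) The equivalence of (1) holds if and only if `G` has minimum degree at
least two or `G²` is not globally rigid; for every `n ≥ 5` there is a graph on `n` vertices for which
it fails. -/
theorem result :
    (∀ (V : Type) [Finite V] (G : SimpleGraph V), NoShortCycle G → 5 ≤ Nat.card V →
      (Deg2 G → (GloballyRigid (square G) ↔ Cond G)) ∧
      (GloballyRigid (square G) ↔ CondC G) ∧
      ((∃ p : V → E3, Generic p ∧ FrameworkGloballyRigid (square G) p) ↔
        GloballyRigid (square G)) ∧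
      ((GloballyRigid (square G) ↔ Cond G) ↔ (Deg2 G ∨ ¬ GloballyRigid (square G)))) ∧
    ∀ n : ℕ, 5 ≤ n → ∃ (V : Type) (_ : Finite V) (G : SimpleGraph V), Nat.card V = n ∧
      NoShortCycle G ∧ ¬ (GloballyRigid (square G) ↔ Cond G) := by
  refine ⟨fun V _ G hG h5 => main V G hG h5, fun n hn => ?_⟩
  obtain ⟨V, hV, G, hc, hs, hr, hn⟩ := MPf1f412.starG_family n hn
  exact ⟨V, hV, G, hc, hs, fun h => hn (h.1 hr)⟩

end Pool.Agent.Results.MP_f1f412_co.SquaresGirthFive
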